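import Pool.Agent.K1H50.PV.Fin
import Pool.Agent.K1H60.PV.MMC
import Pool.Agent.K1H56.PV.Cmp
import Pool.Agent.K1H78.PV.FLT
import Pool.Agent.K1H37.PV.Cnt
import Pool.Agent.K1H63.PV.M1
import Pool.Agent.K1H47.PV.M2

/-! Project PV: assembly. -/

set_option autoImplicit false

namespace Pool.Agent.K1H50.PV

open Finset Filter

theorem t_CMP : S_CMP := Pool.Agent.K1H56.PV.t_CMP Pool.Agent.K1H60.PV.t_MMD Pool.Agent.K1H60.PV.t_MMC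

theorem t_CNT : S_CNT := Pool.Agent.K1H37.PV.t_CNT Pool.Agent.K1H78.PV.t_FLT

open Classical in
theorem fin5' : ∃ c : ℝ, 0 < c ∧ ∀ ε : ℝ, 0 < ε → ∀ B : ℕ, ∃ K : ℝ, 0 < K ∧ ∃ X0 : ℕ, ∀ X : ℕ,
      X0 ≤ X → ∀ Z Y T : ℕ, (X : ℝ) ^ (7 / 8 : ℝ) ≤ Y → Z + Y ≤ 2 * X → K * Real.log X ≤ T →
      (T : ℝ) ≤ Real.log X ^ B →
      (((Ioc Z (Z + Y)).filter (fun n => (N5 n T : ℝ) < c * T / Real.log X)).card : ℝ) ≤ ε * Y :=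
  fin5 t_CMP (Pool.Agent.K1H63.PV.t_M1 t_CNT) (Pool.Agent.K1H47.PV.t_M2 t_CNT)

end Pool.Agent.K1H50.PV
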