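import Pool.Agent.K1H50.PV.Var3
import Pool.Agent.Y882.MG.Quad2
import Pool.Agent.Y882.KW.Num

/-! Project PV: at most five prime factors. -/

set_option autoImplicit false

namespace Pool.Agent.K1H50.PV

open Finset Filter
open Pool.Agent.Y882.KW (WB WW almost cond_A)
open Pool.Agent.Y882.PX (pr_mem)
open Pool.Agent.Y882.SI (QF QF_eval)
open Pool.Agent.W23.DC (tt pr)

/-- `m` has at most five prime factors (with multiplicity), all at least `n ^ (1 / 10)` -/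
def P5 (n m : ℕ) : Prop :=
  m.primeFactorsList.length ≤ 5 ∧ ∀ p : ℕ, p.Prime → p ∣ m → (n : ℝ) ^ (1 / 10 : ℝ) ≤ (p : ℝ)

open Classical in
/-- the number of the `m` in `(n ^ 2, n ^ 2 + T]` with at most five prime factors, all at least
`n ^ (1 / 10)` -/
noncomputable def N5 (n T : ℕ) : ℕ := ((Ioc (n ^ 2) (n ^ 2 + T)).filter (fun m => P5 n m)).card

open Classical in
/-- few `n` with a large square -/
theorem few_sq (X Z Y T : ℕ) (ζ υ : ℝ) (hX : 2 ≤ X) (hζ : 2 ≤ (X : ℝ) ^ ζ) (hT : (T : ℝ) + 4 ≤ (X : ℝ) ^ ζ) :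
    (((Ioc Z (Z + Y)).filter (fun n => ∃ h ∈ Icc 1 T, ∃ q ∈ pr X ζ υ, q ^ 2 ∣ n ^ 2 + h)).card : ℝ) ≤
      T * (4 * Y / (X : ℝ) ^ ζ + 2 * (X : ℝ) ^ υ) := by
  have hX0 : (0 : ℝ) < X := by exact_mod_cast (by omega : 0 < X)
  have hsub : (Ioc Z (Z + Y)).filter (fun n => ∃ h ∈ Icc 1 T, ∃ q ∈ pr X ζ υ, q ^ 2 ∣ n ^ 2 + h) ⊆
      (Icc 1 T).biUnion (fun h => (pr X ζ υ).biUnion (fun q =>
        ((Icc 1 Y).filter (fun j : ℕ => ((q ^ 2 : ℕ) : ℤ) ∣ (QF h).eval ((Z + j : ℕ) : ℤ))).image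
          (fun j => Z + j))) := by
    intro n hn
    rw [mem_filter, mem_Ioc] at hn
    obtain ⟨⟨hn1, hn2⟩, h, hh, q, hq, hd⟩ := hn
    rw [mem_biUnion]
    refine ⟨h, hh, ?_⟩
    rw [mem_biUnion]
    refine ⟨q, hq, ?_⟩
    rw [mem_image]
    refine ⟨n - Z, ?_, by omega⟩
    rw [mem_filter, mem_Icc]
    refine ⟨by omega, ?_⟩
    have e1 : Z + (n - Z) = n := by omega
    rw [e1, QF_eval]
    have : ((n : ℤ) ^ 2 + (h : ℤ)) = ((n ^ 2 + h : ℕ) : ℤ) := by push_cast; rfl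
    rw [this]
    exact_mod_cast hd
  have h1 : (((Ioc Z (Z + Y)).filter (fun n => ∃ h ∈ Icc 1 T, ∃ q ∈ pr X ζ υ, q ^ 2 ∣ n ^ 2 + h)).card
      : ℝ) ≤ ∑ h ∈ Icc 1 T, ∑ q ∈ pr X ζ υ, 2 * (Y * (1 / (q : ℝ) ^ 2) + 1) := by
    refine le_trans (Nat.cast_le.2 (card_le_card hsub)) ?_
    refine le_trans (Nat.cast_le.2 card_biUnion_le) ?_
    rw [Nat.cast_sum]
    apply sum_le_sum
    intro h hh
    refine le_trans (Nat.cast_le.2 card_biUnion_le) ?_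
    rw [Nat.cast_sum]
    apply sum_le_sum
    intro q hq
    refine le_trans (Nat.cast_le.2 card_image_le) ?_
    rw [mem_Icc] at hh
    obtain ⟨hq1, hq2, _⟩ := pr_mem X q ζ υ hX hq
    have h3 : (h : ℝ) ≤ T := by exact_mod_cast hh.2
    have h4 : ((h + 4 : ℕ) : ℝ) ≤ q := by
      push_cast
      linarith
    have h5 : h + 4 ≤ q := by exact_mod_cast h4
    have h6 := Pool.Agent.Y882.MG.sq_countS (h : ℤ) (by omega) q hq1 (by omega) (by omega) Z Y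
    push_cast at h6 ⊢
    exact h6
  refine h1.trans ?_
  rw [sum_const, nsmul_eq_mul, Nat.card_Icc, Nat.add_sub_cancel]
  apply mul_le_mul_of_nonneg_left _ (Nat.cast_nonneg _)
  rw [← mul_sum, sum_add_distrib, ← mul_sum, sum_const, nsmul_eq_mul, mul_one]
  have h2 : ∑ q ∈ pr X ζ υ, 1 / (q : ℝ) ^ 2 ≤ 2 / (X : ℝ) ^ ζ := by
    apply Pool.Agent.Y882.MG.tail_sq _ _ hζ
    intro q hq
    exact (pr_mem X q ζ υ hX hq).2.1
  have h3 : ((pr X ζ υ).card : ℝ) ≤ (X : ℝ) ^ υ := by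
    apply Pool.Agent.Y882.MG.card_lt _ _ (by positivity)
    intro q hq
    obtain ⟨hq1, _, hq3⟩ := pr_mem X q ζ υ hX hq
    exact ⟨hq1.one_le, hq3.le⟩
  have h4 : (Y : ℝ) * ∑ q ∈ pr X ζ υ, 1 / (q : ℝ) ^ 2 ≤ Y * (2 / (X : ℝ) ^ ζ) :=
    mul_le_mul_of_nonneg_left h2 (Nat.cast_nonneg _)
  have h5 : 2 * (Y * (2 / (X : ℝ) ^ ζ)) = 4 * Y / (X : ℝ) ^ ζ := by ring
  linarith

open Classical in
theorem fin5 (hC : S_CMP) (hM1 : S_M1) (hM2 : S_M2) :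
    ∃ c : ℝ, 0 < c ∧ ∀ ε : ℝ, 0 < ε → ∀ B : ℕ, ∃ K : ℝ, 0 < K ∧ ∃ X0 : ℕ, ∀ X : ℕ, X0 ≤ X →
      ∀ Z Y T : ℕ, (X : ℝ) ^ (7 / 8 : ℝ) ≤ Y → Z + Y ≤ 2 * X → K * Real.log X ≤ T →
      (T : ℝ) ≤ Real.log X ^ B →
      (((Ioc Z (Z + Y)).filter (fun n => (N5 n T : ℝ) < c * T / Real.log X)).card : ℝ) ≤ ε * Y := by
  have key := cond_A (43 / 100) (8 / 9) (by norm_num) (by norm_num) (by norm_num)
  obtain ⟨c, hc, H⟩ := low hC hM1 hM2 (43 / 100) (43 / 100 / 4) (24 / 25 * (43 / 100)) (8 / 9)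
    (8 / 9 / (24 / 25 * (43 / 100))) (7 / 8) (by norm_num) (by norm_num) (by norm_num) (by norm_num)
    (by norm_num) (by norm_num) (by norm_num) (by norm_num) (by norm_num) key (by norm_num)
  refine ⟨c, hc, ?_⟩
  intro ε hε B
  obtain ⟨K, hK, X1, HK⟩ := H (ε / 2) (by linarith) B
  obtain ⟨ζ, hζ⟩ : ∃ ζ : ℝ, ζ = 43 / 100 / 4 := ⟨_, rfl⟩
  obtain ⟨υ, hυ⟩ : ∃ υ : ℝ, υ = 24 / 25 * (43 / 100) := ⟨_, rfl⟩
  rw [← hζ, ← hυ] at HK
  refine ⟨K, hK, ?_⟩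
  have v1 : ∀ᶠ X : ℕ in atTop, (3 : ℝ) ^ (1 / 10 : ℝ) ≤ (X : ℝ) ^ (3 / 400 : ℝ) :=
    ((tendsto_rpow_atTop (by norm_num)).comp tendsto_natCast_atTop_atTop).eventually_ge_atTop _
  have v2 := Pool.Agent.K1H50.SQ3.evlog B 4 ζ (by rw [hζ]; norm_num)
  have v3 := evlogC (16 / ε) B ζ (by rw [hζ]; norm_num)
  have v4 := evlogC (8 / ε) B (1 / 4) (by norm_num)
  have v5 : ∀ᶠ X : ℕ in atTop, (5 : ℝ) ≤ (X : ℝ) ^ (1 / 100 : ℝ) :=
    ((tendsto_rpow_atTop (by norm_num)).comp tendsto_natCast_atTop_atTop).eventually_ge_atTop _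
  obtain ⟨X2, hX2⟩ := eventually_atTop.1 (v1.and (v2.and (v3.and (v4.and (v5.and
    (eventually_ge_atTop 3))))))
  refine ⟨max X1 X2, ?_⟩
  intro X hX Z Y T hY hZY hT hTB
  obtain ⟨u1, u2, u3, u4, u5, u6⟩ := hX2 X ((le_max_right _ _).trans hX)
  have hXr : (3 : ℝ) ≤ X := by exact_mod_cast u6
  have hXp : (0 : ℝ) < X := by linarith
  have hX1 : (1 : ℝ) ≤ X := by linarith
  have hl : 0 < Real.log X := Real.log_pos (by linarith)
  have hlB : 0 ≤ Real.log X ^ B := by positivity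
  have hTζ : (T : ℝ) + 4 ≤ (X : ℝ) ^ ζ := by linarith
  have hT0 : (0 : ℝ) ≤ T := Nat.cast_nonneg _
  have hζ2 : (2 : ℝ) ≤ (X : ℝ) ^ ζ := by linarith
  have hY0 : (0 : ℝ) ≤ Y := Nat.cast_nonneg _
  have hlow := HK X ((le_max_left _ _).trans hX) Z Y T hY hZY hT hTB
  have hsq := few_sq X Z Y T ζ υ (by omega) hζ2 hTζ
  have hsq2 : (T : ℝ) * (4 * Y / (X : ℝ) ^ ζ + 2 * (X : ℝ) ^ υ) ≤ ε / 2 * Y := by
    have hXζ : (0 : ℝ) < (X : ℝ) ^ ζ := by positivity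
    have h1 : (T : ℝ) * (4 * Y / (X : ℝ) ^ ζ) ≤ ε / 4 * Y := by
      rw [mul_div_assoc', div_le_iff₀ hXζ]
      rw [div_mul_eq_mul_div, div_le_iff₀ hε] at u3
      calc (T : ℝ) * (4 * Y) = (16 * T) * Y / 4 := by ring
        _ ≤ (16 * Real.log X ^ B) * Y / 4 := by gcongr
        _ ≤ ((X : ℝ) ^ ζ * ε) * Y / 4 := by gcongr
        _ = _ := by ring
    have h2 : (T : ℝ) * (2 * (X : ℝ) ^ υ) ≤ ε / 4 * Y := by
      rw [div_mul_eq_mul_div, div_le_iff₀ hε] at u4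
      have h3 : (X : ℝ) ^ (1 / 4 : ℝ) * (X : ℝ) ^ υ ≤ Y := by
        refine le_trans ?_ hY
        rw [← Real.rpow_add hXp]
        apply Real.rpow_le_rpow_of_exponent_le hX1
        rw [hυ]
        norm_num
      calc (T : ℝ) * (2 * (X : ℝ) ^ υ) = (8 * T) * (X : ℝ) ^ υ / 4 := by ring
        _ ≤ (8 * Real.log X ^ B) * (X : ℝ) ^ υ / 4 := by gcongr
        _ ≤ ((X : ℝ) ^ (1 / 4 : ℝ) * ε) * (X : ℝ) ^ υ / 4 := by gcongr
        _ = ε * ((X : ℝ) ^ (1 / 4 : ℝ) * (X : ℝ) ^ υ) / 4 := by ring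
        _ ≤ ε * Y / 4 := by gcongr
        _ = _ := by ring
    rw [mul_add]
    linarith
  have hsub : (Ioc Z (Z + Y)).filter (fun n => (N5 n T : ℝ) < c * T / Real.log X) ⊆
      ((Ioc Z (Z + Y)).filter (fun n => (((Icc 1 T).filter
        (fun h => 0 < WW X ζ υ (8 / 9) (8 / 9 / υ) (n ^ 2 + h))).card : ℝ) < c * T / Real.log X)) ∪
      ((Ioc Z (Z + Y)).filter (fun n => ∃ h ∈ Icc 1 T, ∃ q ∈ pr X ζ υ, q ^ 2 ∣ n ^ 2 + h)) := by
    intro n hn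
    rw [mem_filter] at hn
    rw [mem_union, mem_filter, mem_filter]
    by_cases hb : ∃ h ∈ Icc 1 T, ∃ q ∈ pr X ζ υ, q ^ 2 ∣ n ^ 2 + h
    · exact Or.inr ⟨hn.1, hb⟩
    left
    refine ⟨hn.1, lt_of_le_of_lt ?_ hn.2⟩
    apply Nat.cast_le.2
    unfold N5
    apply card_le_card_of_injOn (fun h => n ^ 2 + h)
    · intro h hh
      rw [mem_coe, mem_filter] at hh
      obtain ⟨hh1, hh2⟩ := hh
      have hh3 := mem_Icc.1 hh1
      show n ^ 2 + h ∈ _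
      rw [mem_coe, mem_filter, mem_Ioc]
      refine ⟨⟨by omega, by omega⟩, ?_⟩
      have hn2 := (mem_Ioc.1 hn.1).2
      have hn3 : (n : ℝ) ≤ 2 * X := by exact_mod_cast (by omega : n ≤ 2 * X)
      have hh4 : (h : ℝ) ≤ X := by
        have g1 : (h : ℝ) ≤ T := by exact_mod_cast hh3.2
        have g2 : (X : ℝ) ^ ζ ≤ X := by
          calc (X : ℝ) ^ ζ ≤ (X : ℝ) ^ (1 : ℝ) := by
                apply Real.rpow_le_rpow_of_exponent_le hX1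
                rw [hζ]
                norm_num
            _ = X := Real.rpow_one _
        linarith
      have hsize : (((n ^ 2 + h : ℕ)) : ℝ) ≤ (X : ℝ) ^ (201 / 100 : ℝ) := by
        push_cast
        have g3 : (n : ℝ) ^ 2 ≤ (2 * X) ^ 2 := pow_le_pow_left₀ (Nat.cast_nonneg _) hn3 2
        calc (n : ℝ) ^ 2 + h ≤ 5 * (X : ℝ) ^ 2 := by nlinarith
          _ ≤ (X : ℝ) ^ (1 / 100 : ℝ) * (X : ℝ) ^ 2 := mul_le_mul_of_nonneg_right u5 (by positivity)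
          _ = _ := by
              rw [← Real.rpow_natCast (X : ℝ) 2, ← Real.rpow_add hXp]
              congr 1
              push_cast
              norm_num
      have hres := almost X (by omega) ζ υ (8 / 9) (201 / 100) 5 (by rw [hζ, hυ]; norm_num)
        (by rw [hυ]; norm_num) (by rw [hυ]; norm_num) (by norm_num) (by rw [hυ]; norm_num)
        (n ^ 2 + h) (by omega) hsize hh2 (fun q hq hd => hb ⟨h, hh1, q, hq, hd⟩)
      refine ⟨hres.1, fun p hp hd => ?_⟩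
      refine le_trans ?_ (hres.2 p hp hd)
      calc (n : ℝ) ^ (1 / 10 : ℝ) ≤ (3 * (X : ℝ)) ^ (1 / 10 : ℝ) :=
            Real.rpow_le_rpow (Nat.cast_nonneg _) (by linarith) (by norm_num)
        _ = 3 ^ (1 / 10 : ℝ) * (X : ℝ) ^ (1 / 10 : ℝ) := Real.mul_rpow (by norm_num) hXp.le
        _ ≤ (X : ℝ) ^ (3 / 400 : ℝ) * (X : ℝ) ^ (1 / 10 : ℝ) :=
            mul_le_mul_of_nonneg_right u1 (by positivity)
        _ = _ := by
            rw [← Real.rpow_add hXp, hζ]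
            congr 1
            norm_num
    · intro x _ y _ hxy
      simpa using hxy
  have hf1 := Nat.cast_le (α := ℝ).2 ((card_le_card hsub).trans (card_union_le _ _))
  rw [Nat.cast_add] at hf1
  have hf2 := hsq.trans hsq2
  linarith

end Pool.Agent.K1H50.PV
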