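import Pool.Agent.W23.DC.Defs
import Pool.Agent.Y882.VV
import Pool.Agent.Y862.SQ.Stm
import Pool.Agent.H373R2.T7.SysCount

set_option autoImplicit false

/-!
# Project PV: almost primes just above almost all squares, statements of the jobs

`Pool.Agent.W23.DC` : `MM` (recursion of the linear sieve), `Mer`, `tt`, `pr N u v` (primes in `[N^u, N^v)`).
`Pool.Agent.Y862.SQ` : `pr y` (primes up to `y`), `rH`, `VH`, `V1`, `Ns`.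
`Pool.Agent.Y882` : `VV P c h = ∑ T ⊆ P, c T ∏ p ∈ T, h p`.
`Pool.Agent.H373R2.T7` : `PerB`, `nuB`, `pz y` (primes up to `y`).
-/

namespace Pool.Agent.K1H50.PV

open Finset
open Pool.Agent.Y862.SQ (rH VH V1 Ns)
open Pool.Agent.Y882 (VV)
open Pool.Agent.W23.DC (MM Mer tt)

/-- **MMD.** Bound and modulus of continuity of the main terms of the linear sieve. -/
def S_MMD : Prop := ∀ (ε₁ : ℝ) (K : ℕ), 0 < ε₁ → ε₁ ≤ 1 → ∃ C : ℝ, 0 < C ∧ ∀ η : ℝ, 0 ≤ η → η ≤ 1 →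
  ∀ (P : Finset ℕ) (t g : ℕ → ℝ) (w : ℝ), w ≤ 1 → (∀ p ∈ P, 0 ≤ g p) → (∀ p ∈ P, ε₁ ≤ t p) →
    Mer P t g ε₁ w η → ∀ k : ℕ, k ≤ K → ∀ (b : Bool) (τ ζ τ' ζ' : ℝ), ζ ≤ w → ζ' ≤ w →
    |MM P t g k b τ ζ| ≤ C ∧
    |MM P t g k b τ ζ - MM P t g k b τ' ζ'| ≤ C * (|τ - τ'| + |ζ - ζ'| + η)

/-- **MMC.** The main terms of the linear sieve are nearly the same for any two regular densities. -/
def S_MMC : Prop := ∀ (ε₁ η' : ℝ) (K : ℕ), 0 < ε₁ → ε₁ ≤ 1 → 0 < η' → ∃ η : ℝ, 0 < η ∧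
  ∀ (P : Finset ℕ) (t g g' : ℕ → ℝ) (w : ℝ), w ≤ 1 → (∀ p ∈ P, 0 ≤ g p) → (∀ p ∈ P, 0 ≤ g' p) →
    (∀ p ∈ P, ε₁ ≤ t p) → Mer P t g ε₁ w η → Mer P t g' ε₁ w η → ∀ k : ℕ, k ≤ K →
    ∀ (b : Bool) (τ ζ : ℝ), ζ ≤ w → |MM P t g k b τ ζ - MM P t g' k b τ ζ| ≤ η'

open Classical in
/-- **FLT.** The fundamental lemma for periodic conditions, with prescribed conditions at finitely many
large primes and with explicit dependence of the error term. -/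
def S_FLT : Prop := ∀ c : ℕ, 1 ≤ c → ∃ C0 : ℕ, 1 ≤ C0 ∧ ∀ b : ℕ, C0 ≤ b → ∃ y0 : ℕ, ∀ y : ℕ, y0 ≤ y →
  ∀ Q : ℕ → ℕ → Prop, Pool.Agent.H373R2.T7.PerB Q c → ∀ S : Finset ℕ, (∀ p ∈ S, p.Prime ∧ y < p) →
  ∀ X : ℕ,
  |((((Icc 1 X).filter (fun n : ℕ => (∀ p ∈ S, Q p n) ∧
        ∀ p ∈ Pool.Agent.H373R2.T7.pz y, ¬ Q p n)).card : ℕ) : ℝ) -
      X * (∏ p ∈ Pool.Agent.H373R2.T7.pz y, (1 - (Pool.Agent.H373R2.T7.nuB Q p : ℝ) / p)) *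
        ∏ p ∈ S, ((Pool.Agent.H373R2.T7.nuB Q p : ℝ) / p)| ≤
    (1 / 2 : ℝ) ^ b * (X * (∏ p ∈ Pool.Agent.H373R2.T7.pz y,
        (1 - (Pool.Agent.H373R2.T7.nuB Q p : ℝ) / p)) *
        ∏ p ∈ S, ((Pool.Agent.H373R2.T7.nuB Q p : ℝ) / p)) +
      (∏ p ∈ S, (Pool.Agent.H373R2.T7.nuB Q p : ℝ)) * (y : ℝ) ^ (C0 * b)

/-- the density of the `n` with `p ∣ n ^ 2 + h` -/
noncomputable def gg (h p : ℕ) : ℝ := (rH {h} p : ℝ) / p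

/-- the number of the `n` in `(Z, Z + Y]` such that `n ^ 2 + h` and `n ^ 2 + h'` are free of primes up to
`y`, the primes of `T` divide the first and the primes of `T'` the second -/
def cnt (y Z Y h h' : ℕ) (T T' : Finset ℕ) : ℕ :=
  ((Ioc Z (Z + Y)).filter (fun n : ℕ => (∀ p ∈ T, p ∣ n ^ 2 + h) ∧ (∀ p ∈ T', p ∣ n ^ 2 + h') ∧
    ∀ p ∈ Pool.Agent.Y862.SQ.pr y, ¬ p ∣ n ^ 2 + h ∧ ¬ p ∣ n ^ 2 + h')).card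

/-- **CNT.** The number `cnt`. -/
def S_CNT : Prop := ∃ C0 : ℕ, 1 ≤ C0 ∧ ∀ b : ℕ, C0 ≤ b → ∃ y0 : ℕ, ∀ y : ℕ, y0 ≤ y →
  ∀ (Z Y h h' : ℕ) (T T' : Finset ℕ), (∀ p ∈ T, p.Prime ∧ y < p) → (∀ p ∈ T', p.Prime ∧ y < p) →
  Disjoint T T' →
  |(cnt y Z Y h h' T T' : ℝ) - Y * VH {h, h'} y * (∏ p ∈ T, gg h p) * ∏ p ∈ T', gg h' p| ≤
    (1 / 2 : ℝ) ^ b * (Y * VH {h, h'} y * (∏ p ∈ T, gg h p) * ∏ p ∈ T', gg h' p) +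
      2 ^ (T.card + T'.card) * (y : ℝ) ^ (C0 * b)

open Classical in
/-- the weight `c` at the integer `N` -/
noncomputable def ll (P : Finset ℕ) (c : Finset ℕ → ℝ) (N : ℕ) : ℝ :=
  VV P c (fun p => if p ∣ N then 1 else 0)

open Classical in
/-- the sum of the weights of the `n ^ 2 + h`, `h ≤ T`, free of primes up to `y` -/
noncomputable def SS (y T : ℕ) (P : Finset ℕ) (c : Finset ℕ → ℝ) (n : ℕ) : ℝ :=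
  ∑ h ∈ Icc 1 T, if (∀ p ∈ Pool.Agent.Y862.SQ.pr y, ¬ p ∣ n ^ 2 + h) then ll P c (n ^ 2 + h) else 0

/-- the data of the two moments: `P` primes above `y`, coefficients at most `A`, level `D` -/
structure Dat (y Z Y T : ℕ) (P : Finset ℕ) (c : Finset ℕ → ℝ) (A D E M : ℝ) : Prop where
  pr : ∀ p ∈ P, p.Prime ∧ y < p
  A0 : 0 ≤ A
  D1 : 1 ≤ D
  E1 : 1 ≤ E
  M1 : 1 ≤ M
  cA : ∀ U, |c U| ≤ A
  cD : ∀ U ⊆ P, c U ≠ 0 → ((∏ p ∈ U, p : ℕ) : ℝ) ≤ D ∧ (2 : ℝ) ^ U.card ≤ M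
  hE : ∀ h ∈ Icc 1 T, ∏ p ∈ P, (1 + gg h p) ≤ E
  hM : ∀ n ∈ Ioc Z (Z + Y), ∀ h ∈ Icc 1 T, (2 : ℝ) ^ (P.filter (fun p => p ∣ n ^ 2 + h)).card ≤ M

/-- **M1.** The first moment. -/
def S_M1 : Prop := ∃ C0 : ℕ, 1 ≤ C0 ∧ ∀ b : ℕ, C0 ≤ b → ∃ y0 : ℕ, ∀ y : ℕ, y0 ≤ y →
  ∀ (Z Y T : ℕ) (P : Finset ℕ) (c : Finset ℕ → ℝ) (A D E M : ℝ), Dat y Z Y T P c A D E M →
  |∑ n ∈ Ioc Z (Z + Y), SS y T P c n - Y * ∑ h ∈ Icc 1 T, VH {h} y * VV P c (gg h)| ≤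
    (1 / 2 : ℝ) ^ b * (A * E) * (Y * ∑ h ∈ Icc 1 T, VH {h} y) + A * M * D * T * (y : ℝ) ^ (C0 * b)

/-- **M2.** The second moment. -/
def S_M2 : Prop := ∃ C0 : ℕ, 1 ≤ C0 ∧ ∀ b : ℕ, C0 ≤ b → ∃ y0 : ℕ, ∀ y : ℕ, y0 ≤ y →
  ∀ (Z Y T : ℕ) (P : Finset ℕ) (c : Finset ℕ → ℝ) (A D E M : ℝ), Dat y Z Y T P c A D E M → T ≤ y →
  ∑ n ∈ Ioc Z (Z + Y), SS y T P c n ^ 2 ≤
    Y * ∑ x ∈ (Icc 1 T).offDiag, VH {x.1, x.2} y * (VV P c (gg x.1) * VV P c (gg x.2) +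
      A ^ 2 * E ^ 2 * ((1 / 2 : ℝ) ^ b + 4 * ∑ p ∈ P, 1 / (p : ℝ) ^ 2)) +
    (A * M) ^ 2 * ∑ n ∈ Ioc Z (Z + Y), (Ns y T n : ℝ) + (A * M * D * T) ^ 2 * (y : ℝ) ^ (C0 * b)

end Pool.Agent.K1H50.PV
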