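import Pool.Agent.K1H50.PV.Stm
import Pool.Agent.Y882.KW.Lsw4

set_option autoImplicit false

/-!
# Project PV, statement of the job CMP
-/

namespace Pool.Agent.K1H50.PV

open Finset
open Pool.Agent.Y882 (VV)
open Pool.Agent.W23.DC (Mer tt pr)
open Pool.Agent.Y882.KW (WB)

open Classical in
/-- **CMP.** The weights of the weighted linear sieve on the middle primes: their main term is nearly the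
same for any two regular densities. -/
def S_CMP : Prop := ∀ (τ ζ υ a b : ℝ), 0 < ζ → 2 * ζ < τ → τ ≤ 4 * ζ → τ ≤ 1 → ζ ≤ υ → υ < τ → 0 ≤ a →
  0 ≤ b → b * υ ≤ a →
  ∫ x in ζ..υ, (a - b * x) / (τ - x) / x < Real.log (τ / ζ - 1) / τ →
  ∃ f0 : ℝ, 0 < f0 ∧ ∀ ε₁ : ℝ, 0 < ε₁ → ε₁ ≤ ζ → ε₁ ≤ τ - υ → ∀ η' : ℝ, 0 < η' → ∃ η : ℝ, 0 < η ∧
  ∀ Y : ℕ, 2 ≤ Y → ∃ c : Finset ℕ → ℝ, (∀ T, |c T| ≤ 1 + a) ∧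
    (∀ T ⊆ pr Y ε₁ υ, c T ≠ 0 → ((∏ p ∈ T, p : ℕ) : ℝ) ≤ (Y : ℝ) ^ τ) ∧
    (∀ N : ℕ, VV (pr Y ε₁ υ) c (fun p => if p ∣ N then 1 else 0) ≤ WB Y ε₁ ζ υ a b N) ∧
    (∀ g : ℕ → ℝ, (∀ p ∈ pr Y ε₁ υ, 0 ≤ g p) → Mer (pr Y ε₁ υ) (tt Y) g ε₁ υ η →
      ε₁ * f0 ≤ VV (pr Y ε₁ υ) c g) ∧
    ∀ g g' : ℕ → ℝ, (∀ p ∈ pr Y ε₁ υ, 0 ≤ g p) → (∀ p ∈ pr Y ε₁ υ, 0 ≤ g' p) →
      Mer (pr Y ε₁ υ) (tt Y) g ε₁ υ η → Mer (pr Y ε₁ υ) (tt Y) g' ε₁ υ η →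
      |VV (pr Y ε₁ υ) c g - VV (pr Y ε₁ υ) c g'| ≤ η'

end Pool.Agent.K1H50.PV
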