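import Pool.Agent.K1H50.PV.Stm
import Pool.Agent.Y486.SQ.Law

/-! Project PV: from the two moments to almost all `n`. -/

set_option autoImplicit false

namespace Pool.Agent.K1H50.PV

open Finset
open Pool.Agent.Y862.SQ (rH VH V1 Ns)
open Pool.Agent.Y882 (VV)

theorem cheb (S : Finset ℕ) (f : ℕ → ℝ) (μ ρ : ℝ) (hμ : 0 < μ)
    (h1 : S.card * μ * (1 - 4 * ρ) ≤ ∑ n ∈ S, f n)
    (h2 : ∑ n ∈ S, f n ^ 2 ≤ S.card * μ ^ 2 * (1 + 7 * ρ)) :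
    ((S.filter (fun n => f n < μ / 2)).card : ℝ) ≤ 60 * ρ * S.card := by
  classical
  have e1 : ∑ n ∈ S, (f n - μ) ^ 2 = ∑ n ∈ S, f n ^ 2 - 2 * μ * ∑ n ∈ S, f n + S.card * μ ^ 2 := by
    rw [mul_sum, ← sum_sub_distrib, ← nsmul_eq_mul, ← sum_const, ← sum_add_distrib]
    apply sum_congr rfl
    intro n _
    ring
  have e2 : ((S.filter (fun n => f n < μ / 2)).card : ℝ) * (μ ^ 2 / 4) ≤ ∑ n ∈ S, (f n - μ) ^ 2 := by
    calc ((S.filter (fun n => f n < μ / 2)).card : ℝ) * (μ ^ 2 / 4) =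
        ∑ n ∈ S.filter (fun n => f n < μ / 2), μ ^ 2 / 4 := by rw [sum_const, nsmul_eq_mul]
      _ ≤ ∑ n ∈ S.filter (fun n => f n < μ / 2), (f n - μ) ^ 2 := by
          apply sum_le_sum
          intro n hn
          rw [mem_filter] at hn
          nlinarith [hn.2]
      _ ≤ _ := sum_le_sum_of_subset_of_nonneg (filter_subset _ _) (fun _ _ _ => sq_nonneg _)
  have e3 : 2 * μ * (S.card * μ * (1 - 4 * ρ)) ≤ 2 * μ * ∑ n ∈ S, f n :=
    mul_le_mul_of_nonneg_left h1 (by linarith)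
  have hμ2 : 0 < μ ^ 2 := by positivity
  have e4 : ((S.filter (fun n => f n < μ / 2)).card : ℝ) * μ ^ 2 ≤ (60 * ρ * S.card) * μ ^ 2 := by
    nlinarith
  exact le_of_mul_le_mul_right e4 hμ2

open Classical in
/-- the two moments give the lower bound for almost all `n` -/
theorem to_bad (y Z Y T : ℕ) (P : Finset ℕ) (c : Finset ℕ → ℝ) (l ρ W δ1 δ2 dg err1 err2 : ℝ)
    (hρ0 : 0 < ρ) (hρ : ρ ≤ 1 / 100) (hl : 0 < l) (hW : 0 < W)
    (m1 : |∑ n ∈ Ioc Z (Z + Y), SS y T P c n - Y * ∑ h ∈ Icc 1 T, VH {h} y * VV P c (gg h)| ≤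
      δ1 * (Y * ∑ h ∈ Icc 1 T, VH {h} y) + err1)
    (m2 : ∑ n ∈ Ioc Z (Z + Y), SS y T P c n ^ 2 ≤
      Y * ∑ x ∈ (Icc 1 T).offDiag, VH {x.1, x.2} y * (VV P c (gg x.1) * VV P c (gg x.2) + δ2) +
        dg + err2)
    (hLL : ∀ h ∈ Icc 1 T, |VV P c (gg h) - l| ≤ ρ * l) (hδ1 : δ1 ≤ ρ * l) (hδ2 : δ2 ≤ ρ * l ^ 2)
    (s1 : |∑ h ∈ Icc 1 T, VH {h} y - W| ≤ ρ * W)
    (s2 : |∑ x ∈ (Icc 1 T).offDiag, VH {x.1, x.2} y - W ^ 2| ≤ ρ * W ^ 2)
    (hdg : dg ≤ ρ * (Y * (l * W) ^ 2)) (he1 : err1 ≤ ρ * (Y * (l * W)))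
    (he2 : err2 ≤ ρ * (Y * (l * W) ^ 2)) :
    (((Ioc Z (Z + Y)).filter (fun n => SS y T P c n < l * W / 2)).card : ℝ) ≤ 60 * ρ * Y := by
  have hY0 : (0 : ℝ) ≤ Y := Nat.cast_nonneg _
  have hcard : ((Ioc Z (Z + Y)).card : ℝ) = Y := by simp
  have hVH : ∀ H : Finset ℕ, 0 ≤ VH H y := fun H => Pool.Agent.Y486.SQ.VH_nonneg H y
  obtain ⟨s11, s12⟩ := abs_le.1 s1
  obtain ⟨s21, s22⟩ := abs_le.1 s2
  have hlo : ∀ h ∈ Icc 1 T, l * (1 - ρ) ≤ VV P c (gg h) ∧ VV P c (gg h) ≤ l * (1 + ρ) := by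
    intro h hh
    obtain ⟨h1, h2⟩ := abs_le.1 (hLL h hh)
    constructor <;> linarith
  set G1 := ∑ h ∈ Icc 1 T, VH {h} y with hG1
  have f1 : l * (1 - ρ) * G1 ≤ ∑ h ∈ Icc 1 T, VH {h} y * VV P c (gg h) := by
    rw [hG1, mul_sum]
    apply sum_le_sum
    intro h hh
    have := mul_le_mul_of_nonneg_left (hlo h hh).1 (hVH {h})
    linarith
  have f2 : ∑ x ∈ (Icc 1 T).offDiag, VH {x.1, x.2} y * (VV P c (gg x.1) * VV P c (gg x.2) + δ2) ≤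
      (l ^ 2 * (1 + ρ) ^ 2 + δ2) * ∑ x ∈ (Icc 1 T).offDiag, VH {x.1, x.2} y := by
    rw [mul_sum]
    apply sum_le_sum
    intro x hx
    rw [mem_offDiag] at hx
    obtain ⟨a1, a2⟩ := hlo x.1 hx.1
    obtain ⟨a3, a4⟩ := hlo x.2 hx.2.1
    have hl0 : 0 ≤ l * (1 - ρ) := by
      apply mul_nonneg hl.le
      linarith
    have h3 : VV P c (gg x.1) * VV P c (gg x.2) ≤ (l * (1 + ρ)) * (l * (1 + ρ)) :=
      mul_le_mul a2 a4 (hl0.trans a3) (by positivity)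
    have h4 : VV P c (gg x.1) * VV P c (gg x.2) + δ2 ≤ l ^ 2 * (1 + ρ) ^ 2 + δ2 := by
      have : (l * (1 + ρ)) * (l * (1 + ρ)) = l ^ 2 * (1 + ρ) ^ 2 := by ring
      linarith
    have := mul_le_mul_of_nonneg_left h4 (hVH {x.1, x.2})
    linarith
  have hG10 : 0 ≤ G1 := sum_nonneg fun h _ => hVH _
  have k1 : W * (1 - ρ) ≤ G1 := by linarith
  have k2 : G1 ≤ W * (1 + ρ) := by linarith
  -- first moment
  have g1 : (Y : ℝ) * (l * W) * (1 - 4 * ρ) ≤ ∑ n ∈ Ioc Z (Z + Y), SS y T P c n := by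
    have h1 := (abs_le.1 m1).1
    have h3 : δ1 * (Y * G1) ≤ ρ * l * (Y * G1) := mul_le_mul_of_nonneg_right hδ1 (by positivity)
    have h4 := mul_le_mul_of_nonneg_left f1 hY0
    have h5 : (Y : ℝ) * (l * (1 - ρ) * G1) - ρ * l * (Y * G1) - ρ * (Y * (l * W)) ≤
        ∑ n ∈ Ioc Z (Z + Y), SS y T P c n := by linarith
    refine le_trans ?_ h5
    have h6 : (Y : ℝ) * l * (1 - 2 * ρ) * (W * (1 - ρ)) ≤ (Y : ℝ) * l * (1 - 2 * ρ) * G1 := by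
      apply mul_le_mul_of_nonneg_left k1
      have : 0 ≤ 1 - 2 * ρ := by linarith
      positivity
    have h7 : (Y : ℝ) * (l * (1 - ρ) * G1) - ρ * l * (Y * G1) = Y * l * (1 - 2 * ρ) * G1 := by ring
    rw [h7]
    have h8 : (Y : ℝ) * l * (1 - 2 * ρ) * (W * (1 - ρ)) = Y * (l * W) * (1 - 3 * ρ + 2 * ρ ^ 2) := by ring
    have h9 : (0 : ℝ) ≤ Y * (l * W) * (2 * ρ ^ 2) := by positivity
    nlinarith
  -- second moment
  have g2 : ∑ n ∈ Ioc Z (Z + Y), SS y T P c n ^ 2 ≤ (Y : ℝ) * (l * W) ^ 2 * (1 + 7 * ρ) := by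
    set G2 := ∑ x ∈ (Icc 1 T).offDiag, VH {x.1, x.2} y with hG2
    have h1 : (l ^ 2 * (1 + ρ) ^ 2 + δ2) * G2 ≤ (l ^ 2 * (1 + ρ) ^ 2 + ρ * l ^ 2) * (W ^ 2 * (1 + ρ)) := by
      apply mul_le_mul (by linarith) (by linarith)
      · exact sum_nonneg fun x _ => hVH _
      · positivity
    have h2 : (l ^ 2 * (1 + ρ) ^ 2 + ρ * l ^ 2) * (W ^ 2 * (1 + ρ)) ≤ (l * W) ^ 2 * (1 + 5 * ρ) := by
      have e : (l ^ 2 * (1 + ρ) ^ 2 + ρ * l ^ 2) * (W ^ 2 * (1 + ρ)) =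
          (l * W) ^ 2 * (1 + 4 * ρ + 4 * ρ ^ 2 + ρ ^ 3) := by ring
      rw [e]
      apply mul_le_mul_of_nonneg_left _ (by positivity)
      nlinarith
    have h3 := mul_le_mul_of_nonneg_left (f2.trans (h1.trans h2)) hY0
    nlinarith
  have key := cheb (Ioc Z (Z + Y)) (SS y T P c) (l * W) ρ (by positivity) (by rw [hcard]; exact g1)
    (by rw [hcard]; exact g2)
  rw [hcard] at key
  exact key

/-- sums over pairs -/
theorem pairs (S : Finset ℕ) (F : Finset ℕ → ℝ) :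
    ∑ x ∈ S.offDiag, F {x.1, x.2} = 2 * ∑ H ∈ powersetCard 2 S, F H := by
  classical
  have h1 : ∀ x ∈ S.offDiag, ({x.1, x.2} : Finset ℕ) ∈ powersetCard 2 S := by
    intro x hx
    rw [mem_offDiag] at hx
    rw [mem_powersetCard]
    refine ⟨?_, card_pair hx.2.2⟩
    intro z hz
    rw [mem_insert, mem_singleton] at hz
    rcases hz with rfl | rfl
    · exact hx.1
    · exact hx.2.1
  rw [← sum_fiberwise_of_maps_to h1, mul_sum]
  apply sum_congr rfl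
  intro H hH
  rw [mem_powersetCard] at hH
  obtain ⟨u, v, huv, rfl⟩ := card_eq_two.1 hH.2
  have hu : u ∈ S := hH.1 (by simp)
  have hv : v ∈ S := hH.1 (by simp)
  have e : S.offDiag.filter (fun x => ({x.1, x.2} : Finset ℕ) = {u, v}) = {(u, v), (v, u)} := by
    ext ⟨p, q⟩
    rw [mem_filter, mem_offDiag, mem_insert, mem_singleton, Prod.mk.injEq, Prod.mk.injEq]
    simp only
    constructor
    · rintro ⟨⟨_, _, hne⟩, heq⟩
      have hp : p ∈ ({u, v} : Finset ℕ) := by rw [← heq]; simp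
      have hq : q ∈ ({u, v} : Finset ℕ) := by rw [← heq]; simp
      rw [mem_insert, mem_singleton] at hp hq
      rcases hp with rfl | rfl <;> rcases hq with rfl | rfl
      · exact absurd rfl hne
      · exact Or.inl ⟨rfl, rfl⟩
      · exact Or.inr ⟨rfl, rfl⟩
      · exact absurd rfl hne
    · rintro (⟨rfl, rfl⟩ | ⟨rfl, rfl⟩)
      · exact ⟨⟨hu, hv, huv⟩, rfl⟩
      · exact ⟨⟨hv, hu, huv.symm⟩, pair_comm _ _⟩
  rw [e, sum_pair (by rw [ne_eq, Prod.mk.injEq]; rintro ⟨h, _⟩; exact huv h)]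
  simp only
  rw [pair_comm v u]
  ring

theorem singles (S : Finset ℕ) (F : Finset ℕ → ℝ) :
    ∑ h ∈ S, F {h} = ∑ H ∈ powersetCard 1 S, F H := by
  rw [powersetCard_one, sum_map]
  rfl

end Pool.Agent.K1H50.PV
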