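import Pool.Agent.K1H50.PV.Var1
import Pool.Agent.K1H50.PV.Stm2
import Pool.Agent.K1H50.SQ3.U1
import Pool.Agent.Y862.SQ.Main1
import Pool.Agent.Y882.KW.Core4

/-! Project PV: the lower bound for almost all `n`. -/

set_option autoImplicit false

namespace Pool.Agent.K1H50.PV

open Finset Filter
open Pool.Agent.Y862.SQ (rH VH V1 Ns t_MOM t_AVG)
open Pool.Agent.Y882 (VV PZ)
open Pool.Agent.Y882.KW (WB WW)
open Pool.Agent.Y882.PX (ro ro_eq pr_mem)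
open Pool.Agent.Y882.SI (QF QF_eval)
open Pool.Agent.W23.DC (Mer tt pr)

theorem gg_eq (h p : ℕ) : gg h p = (ro (QF h) 0 p : ℝ) / p := by
  unfold gg
  congr 2
  rw [ro_eq]
  unfold rH
  congr 1
  ext n
  rw [mem_filter, mem_filter]
  apply and_congr_right
  intro _
  rw [QF_eval, add_zero]
  constructor
  · rintro ⟨h', hh', hd⟩
    rw [mem_singleton] at hh'
    subst hh'
    have : (((n ^ 2 + h' : ℕ)) : ℤ) = (n : ℤ) ^ 2 + (h' : ℤ) := by push_cast; rfl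
    rw [← this]
    exact_mod_cast hd
  · intro hd
    refine ⟨h, mem_singleton_self h, ?_⟩
    have : (((n ^ 2 + h : ℕ)) : ℤ) = (n : ℤ) ^ 2 + (h : ℤ) := by push_cast; rfl
    rw [← this] at hd
    exact_mod_cast hd

open Classical in
theorem ind_WB (X : ℕ) (hX : 2 ≤ X) (ε₁ ζ υ a b : ℝ) (hεζ : ε₁ ≤ ζ) (hε1 : ε₁ ≤ 1)
    (N : ℕ) : (if ∀ p ∈ Pool.Agent.Y862.SQ.pr (⌈(X : ℝ) ^ ε₁⌉₊ - 1), ¬ p ∣ N then
      WB X ε₁ ζ υ a b N else 0) = WW X ζ υ a b N := by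
  have hXr : (1 : ℝ) ≤ X := by exact_mod_cast (by omega : 1 ≤ X)
  have hX1 : (X : ℝ) ^ ε₁ ≤ X := by
    calc (X : ℝ) ^ ε₁ ≤ (X : ℝ) ^ (1 : ℝ) := Real.rpow_le_rpow_of_exponent_le hXr hε1
      _ = X := Real.rpow_one _
  have key : (∀ p ∈ PZ X ζ, ¬ p ∣ N) ↔
      ((∀ p ∈ Pool.Agent.Y862.SQ.pr (⌈(X : ℝ) ^ ε₁⌉₊ - 1), ¬ p ∣ N) ∧ ∀ p ∈ pr X ε₁ ζ, ¬ p ∣ N) := by
    constructor
    · intro h
      constructor
      · intro p hp
        unfold Pool.Agent.Y862.SQ.pr at hp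
        rw [mem_filter, mem_Icc] at hp
        apply h
        have h1 : p < ⌈(X : ℝ) ^ ε₁⌉₊ := by omega
        have h2 : (p : ℝ) < (X : ℝ) ^ ε₁ := Nat.lt_ceil.1 h1
        unfold PZ
        rw [mem_filter, mem_Icc]
        refine ⟨⟨hp.1.1, ?_⟩, hp.2, ?_⟩
        · have : (p : ℝ) ≤ X := by linarith
          exact_mod_cast this
        · exact ((Pool.Agent.Y882.tt_lt X p ε₁ hX hp.2.pos).2 h2).trans_le hεζ
      · intro p hp
        apply h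
        unfold pr at hp
        rw [mem_filter] at hp
        unfold PZ
        rw [mem_filter]
        exact ⟨hp.1, hp.2.1, hp.2.2.2⟩
    · rintro ⟨h1, h2⟩ p hp
      unfold PZ at hp
      rw [mem_filter] at hp
      rcases lt_or_ge (tt X p) ε₁ with h | h
      · apply h1
        unfold Pool.Agent.Y862.SQ.pr
        rw [mem_filter, mem_Icc]
        have h3 := (Pool.Agent.Y882.tt_lt X p ε₁ hX hp.2.1.pos).1 h
        have h4 : p < ⌈(X : ℝ) ^ ε₁⌉₊ := Nat.lt_ceil.2 h3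
        exact ⟨⟨hp.2.1.one_le, by omega⟩, hp.2.1⟩
      · apply h2
        unfold pr
        rw [mem_filter]
        exact ⟨hp.1, hp.2.1, h, hp.2.2⟩
  unfold WB WW
  by_cases h1 : ∀ p ∈ Pool.Agent.Y862.SQ.pr (⌈(X : ℝ) ^ ε₁⌉₊ - 1), ¬ p ∣ N
  · rw [if_pos h1]
    by_cases h2 : ∀ p ∈ pr X ε₁ ζ, ¬ p ∣ N
    · rw [if_pos h2, if_pos (key.2 ⟨h1, h2⟩)]
    · rw [if_neg h2, if_neg (fun h => h2 (key.1 h).2)]
  · rw [if_neg h1, if_neg (fun h => h1 (key.1 h).1)]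
    simp

open Classical in
theorem SS_le (X T : ℕ) (hX : 2 ≤ X) (ε₁ ζ υ a b : ℝ) (hεζ : ε₁ ≤ ζ) (hε1 : ε₁ ≤ 1) (hb : 0 ≤ b)
    (hab : b * υ ≤ a) (P : Finset ℕ) (c : Finset ℕ → ℝ)
    (hc : ∀ N : ℕ, VV P c (fun p => if p ∣ N then 1 else 0) ≤ WB X ε₁ ζ υ a b N) (n : ℕ) :
    SS (⌈(X : ℝ) ^ ε₁⌉₊ - 1) T P c n ≤
      (((Icc 1 T).filter (fun h => 0 < WW X ζ υ a b (n ^ 2 + h))).card : ℝ) := by
  unfold SS
  rw [card_filter]
  push_cast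
  apply sum_le_sum
  intro h _
  have h1 : (if (∀ p ∈ Pool.Agent.Y862.SQ.pr (⌈(X : ℝ) ^ ε₁⌉₊ - 1), ¬ p ∣ n ^ 2 + h) then
      ll P c (n ^ 2 + h) else 0) ≤ WW X ζ υ a b (n ^ 2 + h) := by
    rw [← ind_WB X hX ε₁ ζ υ a b hεζ hε1 (n ^ 2 + h)]
    split_ifs
    · unfold ll
      exact hc _
    · exact le_rfl
  refine h1.trans ?_
  split_ifs with h2
  · exact Pool.Agent.Y882.KW.WW_le_one X ζ υ a b hb hab _
  · exact not_lt.1 h2

/-- few large primes -/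
theorem card_bd (X : ℕ) (hX : 2 ≤ X) (e : ℝ) (he : 0 < e) (U : Finset ℕ)
    (hU : ∀ p ∈ U, (X : ℝ) ^ e ≤ p) (hp : ((∏ p ∈ U, p : ℕ) : ℝ) ≤ (X : ℝ) ^ (3 : ℝ)) :
    (2 : ℝ) ^ U.card ≤ 2 ^ ⌈3 / e⌉₊ := by
  have hXr : (1 : ℝ) < X := by exact_mod_cast (by omega : 1 < X)
  have hX0 : (0 : ℝ) < X := by linarith
  have h1 : ((X : ℝ) ^ e) ^ U.card ≤ ((∏ p ∈ U, p : ℕ) : ℝ) := by
    push_cast
    rw [← prod_const]
    apply Finset.prod_le_prod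
    · intro p _
      positivity
    · exact hU
  have h2 : (X : ℝ) ^ (e * U.card) ≤ (X : ℝ) ^ (3 : ℝ) := by
    rw [Real.rpow_mul hX0.le, Real.rpow_natCast]
    exact h1.trans hp
  have h3 : e * U.card ≤ 3 := (Real.rpow_le_rpow_left_iff hXr).1 h2
  apply pow_le_pow_right₀ (by norm_num)
  have h4 : (U.card : ℝ) ≤ 3 / e := by
    rw [le_div_iff₀ he]
    linarith
  have h5 : (U.card : ℝ) ≤ (⌈3 / e⌉₊ : ℝ) := h4.trans (Nat.le_ceil _)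
  exact_mod_cast h5

/-- choice of the parameter of the fundamental lemma -/
theorem choose_b (Cm : ℕ) (hCm : 1 ≤ Cm) (gap emax Q κ : ℝ) (hg : 0 < gap) (he : 0 < emax)
    (hQ : 0 < Q) (hκ : 0 < κ) : ∃ b : ℕ, Cm ≤ b ∧ gap / (2 * Cm * b) ≤ emax ∧
      (1 / 2 : ℝ) ^ b * Q ≤ κ * (gap / (2 * Cm * b)) ^ 4 := by
  have hC0 : (0 : ℝ) < Cm := by exact_mod_cast hCm
  have h1 : Tendsto (fun n : ℕ => (n : ℝ) ^ 4 * (1 / 2 : ℝ) ^ n) atTop (nhds 0) :=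
    tendsto_pow_const_mul_const_pow_of_abs_lt_one 4 (by rw [abs_of_pos] <;> norm_num)
  have h2 : ∀ᶠ n : ℕ in atTop, (n : ℝ) ^ 4 * (1 / 2 : ℝ) ^ n ≤ κ * (gap / (2 * Cm)) ^ 4 / Q :=
    h1.eventually_le_const (by positivity)
  have h3 : ∀ᶠ n : ℕ in atTop, gap / (2 * Cm * emax) ≤ (n : ℝ) :=
    tendsto_natCast_atTop_atTop.eventually_ge_atTop _
  obtain ⟨b, hb2, hb3, hb4⟩ := (h2.and (h3.and (eventually_ge_atTop Cm))).exists
  have hb0 : (0 : ℝ) < b := by exact_mod_cast (by omega : 0 < b)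
  refine ⟨b, hb4, ?_, ?_⟩
  · rw [div_le_iff₀ (by positivity)] at hb3 ⊢
    linarith
  · rw [le_div_iff₀ hQ] at hb2
    have e : κ * (gap / (2 * Cm * b)) ^ 4 = κ * (gap / (2 * Cm)) ^ 4 / (b : ℝ) ^ 4 := by
      field_simp
    rw [e, le_div_iff₀ (by positivity)]
    calc (1 / 2 : ℝ) ^ b * Q * (b : ℝ) ^ 4 = (b : ℝ) ^ 4 * (1 / 2 : ℝ) ^ b * Q := by ring
      _ ≤ _ := hb2

theorem evlogC (C : ℝ) (k : ℕ) (s : ℝ) (hs : 0 < s) : ∀ᶠ X : ℕ in atTop,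
    C * Real.log X ^ k ≤ (X : ℝ) ^ s := by
  have h1 := Pool.Agent.K1H50.SQ3.evlog k 0 (s / 2) (by linarith)
  have h2 : ∀ᶠ X : ℕ in atTop, C ≤ (X : ℝ) ^ (s / 2) :=
    ((tendsto_rpow_atTop (by linarith)).comp tendsto_natCast_atTop_atTop).eventually_ge_atTop _
  filter_upwards [h1, h2, eventually_ge_atTop 3] with X h3 h4 h5
  have hX0 : (0 : ℝ) < X := by exact_mod_cast (by omega : 0 < X)
  have hX1 : (1 : ℝ) ≤ X := by exact_mod_cast (by omega : 1 ≤ X)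
  have hl : 0 ≤ Real.log X := Real.log_nonneg hX1
  calc C * Real.log X ^ k ≤ (X : ℝ) ^ (s / 2) * Real.log X ^ k :=
        mul_le_mul_of_nonneg_right h4 (by positivity)
    _ ≤ (X : ℝ) ^ (s / 2) * (X : ℝ) ^ (s / 2) := by
        apply mul_le_mul_of_nonneg_left _ (by positivity)
        linarith
    _ = _ := by
        rw [← Real.rpow_add hX0]
        congr 1
        ring

end Pool.Agent.K1H50.PV
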