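import Pool.Agent.K1H50.PV.Var2
import Pool.Agent.Y882.MG.EngS

/-! Project PV: the lower bound for almost all `n`, assembly. -/

set_option autoImplicit false

namespace Pool.Agent.K1H50.PV

open Finset Filter
open Pool.Agent.Y862.SQ (rH VH V1 Ns t_MOM t_AVG)
open Pool.Agent.Y882 (VV PZ)
open Pool.Agent.Y882.KW (WB WW)
open Pool.Agent.Y882.PX (ro ro_eq pr_mem)
open Pool.Agent.Y882.SI (QF QF_eval)
open Pool.Agent.W23.DC (Mer tt pr)

theorem gg_nonneg (h p : ℕ) : 0 ≤ gg h p := by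
  unfold gg
  positivity

theorem not_sq' (h : ℕ) (hh : 1 ≤ h) : ¬ IsSquare (-(h : ℤ)) := by
  rintro ⟨k, hk⟩
  have := mul_self_nonneg k
  omega

theorem size_aux (X : ℝ) (hX : 5 ≤ X) : (2 * X) ^ 2 + X ≤ X ^ 3 := by
  nlinarith [sq_nonneg X, mul_nonneg (by linarith : (0 : ℝ) ≤ X) (by linarith : (0 : ℝ) ≤ X - 5)]

/-- the absolute sums -/
theorem prod_gg (X : ℕ) (e υ η : ℝ) (he : 0 < e) (heυ : e ≤ υ) (hυ : υ ≤ 1) (hη : η ≤ 1) (h : ℕ)
    (hM : Mer (pr X e υ) (tt X) (gg h) e υ η) : ∏ p ∈ pr X e υ, (1 + gg h p) ≤ 3 / e := by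
  classical
  have h1 := (abs_le.1 (hM e υ le_rfl heυ le_rfl)).2
  have h2 : (pr X e υ).filter (fun p => e ≤ tt X p ∧ tt X p < υ) = pr X e υ := by
    apply filter_true_of_mem
    intro p hp
    unfold pr at hp
    rw [mem_filter] at hp
    exact hp.2.2
  rw [h2] at h1
  calc ∏ p ∈ pr X e υ, (1 + gg h p) ≤ ∏ p ∈ pr X e υ, Real.exp (gg h p) := by
        apply Finset.prod_le_prod
        · intro p _
          have := gg_nonneg h p
          linarith
        · intro p _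
          have := Real.add_one_le_exp (gg h p)
          linarith
    _ = Real.exp (∑ p ∈ pr X e υ, gg h p) := (Real.exp_sum _ _).symm
    _ ≤ Real.exp (Real.log (υ / e) + 1) := Real.exp_le_exp.2 (by linarith)
    _ = υ / e * Real.exp 1 := by
        rw [Real.exp_add, Real.exp_log (div_pos (by linarith) he)]
    _ ≤ 1 / e * 3 := by
        apply mul_le_mul
        · exact div_le_div_of_nonneg_right hυ he.le
        · linarith [Real.exp_one_lt_d9]
        · positivity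
        · positivity
    _ = 3 / e := by ring

open Classical in
theorem low (hC : S_CMP) (hM1 : S_M1) (hM2 : S_M2) (τ ζ υ a b θ : ℝ) (hζ : 0 < ζ) (h2 : 2 * ζ < τ)
    (h4 : τ ≤ 4 * ζ) (hτ : τ ≤ 1) (hζυ : ζ ≤ υ) (hυτ : υ < τ) (ha : 0 ≤ a) (hb : 0 ≤ b)
    (hab : b * υ ≤ a)
    (hJ : ∫ x in ζ..υ, (a - b * x) / (τ - x) / x < Real.log (τ / ζ - 1) / τ) (hθ : 2 * τ < θ) :
    ∃ c0 : ℝ, 0 < c0 ∧ ∀ ε : ℝ, 0 < ε → ∀ B : ℕ, ∃ K : ℝ, 0 < K ∧ ∃ X0 : ℕ, ∀ X : ℕ, X0 ≤ X →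
      ∀ Z Y T : ℕ, (X : ℝ) ^ θ ≤ Y → Z + Y ≤ 2 * X → K * Real.log X ≤ T →
      (T : ℝ) ≤ Real.log X ^ B →
      (((Ioc Z (Z + Y)).filter (fun n => (((Icc 1 T).filter
        (fun h => 0 < WW X ζ υ a b (n ^ 2 + h))).card : ℝ) < c0 * T / Real.log X)).card : ℝ) ≤
          ε * Y := by
  obtain ⟨f0, hf0, HC⟩ := hC τ ζ υ a b hζ h2 h4 hτ hζυ hυτ ha hb hab hJ
  obtain ⟨c1, C1, hc1, hC1, hV⟩ := Pool.Agent.Y810.SQ.V1_bounds
  refine ⟨f0 * c1 / 2, by positivity, ?_⟩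
  intro ε hε B
  obtain ⟨C01, hC01, H1⟩ := hM1
  obtain ⟨C02, hC02, H2⟩ := hM2
  obtain ⟨Km, ym, Tm, Hm⟩ := t_MOM 0 1 one_pos
  obtain ⟨ρ, hρdef⟩ : ∃ ρ : ℝ, ρ = min (ε / 60) (1 / 100) := ⟨_, rfl⟩
  have hρ0 : 0 < ρ := by rw [hρdef]; positivity
  have hρ1 : ρ ≤ 1 / 100 := by rw [hρdef]; exact min_le_right _ _
  have hρε : 60 * ρ ≤ ε := by
    have : ρ ≤ ε / 60 := by rw [hρdef]; exact min_le_left _ _
    linarith
  obtain ⟨A, hAdef⟩ : ∃ A : ℝ, A = 1 + a := ⟨_, rfl⟩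
  have hA1 : 1 ≤ A := by linarith
  have hA0 : 0 < A := by linarith
  obtain ⟨gap, hgapdef⟩ : ∃ gap : ℝ, gap = θ - 2 * τ := ⟨_, rfl⟩
  have hgap : 0 < gap := by linarith
  have hτ0 : 0 < τ := by linarith
  have hυ0 : 0 < υ := by linarith
  have hυ1 : υ ≤ 1 := by linarith
  have hθ0 : 0 < θ := by linarith
  obtain ⟨Cm, hCmdef⟩ : ∃ Cm : ℕ, Cm = C01 + C02 := ⟨_, rfl⟩
  have hCm0 : (0 : ℝ) < Cm := by exact_mod_cast (by omega : 0 < Cm)
  obtain ⟨bb, hb1, hb2, hb3⟩ := choose_b Cm (by omega) gap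
    (min (min (min ζ (τ - υ)) 1) (θ / (Km + 1))) (18 * A ^ 2 + 3 * A) (min (ρ * f0) (ρ * f0 ^ 2))
    hgap (lt_min (lt_min (lt_min hζ (by linarith)) one_pos) (by positivity)) (by positivity)
    (lt_min (by positivity) (by positivity))
  have hbb0 : (0 : ℝ) < bb := by exact_mod_cast (by omega : 0 < bb)
  obtain ⟨e, hedef⟩ : ∃ e : ℝ, e = gap / (2 * Cm * bb) := ⟨_, rfl⟩
  rw [← hedef] at hb2 hb3
  have he0 : 0 < e := by rw [hedef]; positivity
  have heζ : e ≤ ζ := ((hb2.trans (min_le_left _ _)).trans (min_le_left _ _)).trans (min_le_left _ _)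
  have heτ : e ≤ τ - υ :=
    ((hb2.trans (min_le_left _ _)).trans (min_le_left _ _)).trans (min_le_right _ _)
  have he1 : e ≤ 1 := (hb2.trans (min_le_left _ _)).trans (min_le_right _ _)
  have heK : e * (Km + 1) ≤ θ := by
    have := hb2.trans (min_le_right _ _)
    rwa [le_div_iff₀ (by positivity)] at this
  have hegap : e * (Cm * bb) = gap / 2 := by
    rw [hedef]
    field_simp
  have hb3a : (1 / 2 : ℝ) ^ bb * (18 * A ^ 2 + 3 * A) ≤ ρ * f0 * e ^ 4 :=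
    hb3.trans (mul_le_mul_of_nonneg_right (min_le_left _ _) (by positivity))
  have hb3b : (1 / 2 : ℝ) ^ bb * (18 * A ^ 2 + 3 * A) ≤ ρ * f0 ^ 2 * e ^ 4 :=
    hb3.trans (mul_le_mul_of_nonneg_right (min_le_right _ _) (by positivity))
  have heυ : e ≤ υ := heζ.trans hζυ
  obtain ⟨η0, hη0, HC2⟩ := HC e he0 heζ heτ (ρ * (e * f0)) (by positivity)
  obtain ⟨Y2, HM⟩ := Pool.Agent.K1H50.SQ3.mer_unif B e υ (min η0 1) he0 hυ1 (lt_min hη0 one_pos)
  obtain ⟨y1, H1'⟩ := H1 bb (by omega)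
  obtain ⟨y2, H2'⟩ := H2 bb (by omega)
  obtain ⟨w0, T0, HA0⟩ := t_AVG 0 ρ hρ0
  obtain ⟨w1, T1, HA1⟩ := t_AVG 1 ρ hρ0
  obtain ⟨E, hEdef⟩ : ∃ E : ℝ, E = 3 / e := ⟨_, rfl⟩
  have hE1 : 1 ≤ E := by
    rw [hEdef, le_div_iff₀ he0]
    linarith
  obtain ⟨M, hMdef⟩ : ∃ M : ℝ, M = 2 ^ ⌈3 / e⌉₊ := ⟨_, rfl⟩
  have hM1' : 1 ≤ M := by rw [hMdef]; exact one_le_pow₀ (by norm_num)
  have hM0 : 0 < M := by linarith
  obtain ⟨W0, hW0def⟩ : ∃ W0 : ℝ, W0 = 3 * (A * M) ^ 2 / (ρ * (e * f0) ^ 2) := ⟨_, rfl⟩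
  have hW00 : 0 < W0 := by rw [hW0def]; positivity
  refine ⟨W0 * e / c1 + 1, by positivity, ?_⟩
  obtain ⟨N0, hN0⟩ : ∃ N0 : ℕ, N0 = y1 + y2 + ym + w0 + w1 + Tm + T0 + T1 := ⟨_, rfl⟩
  have v1 : ∀ᶠ X : ℕ in atTop, (N0 : ℝ) + 3 ≤ (X : ℝ) ^ e :=
    ((tendsto_rpow_atTop he0).comp tendsto_natCast_atTop_atTop).eventually_ge_atTop _
  have v2 := Pool.Agent.K1H50.SQ3.evlog B 3 e he0
  have v3 := evlogC (1 / c1) 1 (θ / 2) (by linarith)
  have v4 := evlogC (A * M / (ρ * (f0 * c1))) 1 (gap / 2) (by linarith)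
  have v5 := evlogC ((A * M) ^ 2 / (ρ * (f0 * c1) ^ 2)) 2 (gap / 2) (by linarith)
  have v6 : ∀ᶠ X : ℕ in atTop, 16 * (A ^ 2 * E ^ 2) / (ρ * (e * f0) ^ 2) ≤ (X : ℝ) ^ e :=
    ((tendsto_rpow_atTop he0).comp tendsto_natCast_atTop_atTop).eventually_ge_atTop _
  have v7 : ∀ᶠ X : ℕ in atTop, (N0 : ℝ) + 3 ≤ Real.log X :=
    (Real.tendsto_log_atTop.comp tendsto_natCast_atTop_atTop).eventually_ge_atTop _
  obtain ⟨X0, hX0⟩ := eventually_atTop.1 (v1.and (v2.and (v3.and (v4.and (v5.and (v6.and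
    (v7.and (eventually_ge_atTop 5))))))))
  refine ⟨max Y2 X0, ?_⟩
  intro X hX Z Y T hY hZY hT hTB
  obtain ⟨u1, u2, u3, u4, u5, u6, u7, u8⟩ := hX0 X ((le_max_right _ _).trans hX)
  have hXY2 : Y2 ≤ X := (le_max_left _ _).trans hX
  have hXr : (5 : ℝ) ≤ X := by exact_mod_cast u8
  have hXp : (0 : ℝ) < X := by linarith
  have hX1 : (1 : ℝ) ≤ X := by linarith
  have hN00 : (0 : ℝ) ≤ N0 := Nat.cast_nonneg _
  obtain ⟨L, hLdef⟩ : ∃ L : ℝ, L = Real.log X := ⟨_, rfl⟩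
  rw [← hLdef] at hT hTB u2 u3 u4 u5 u7 ⊢
  have hL0 : 0 < L := by linarith
  have hXe0 : (0 : ℝ) < (X : ℝ) ^ e := by positivity
  obtain ⟨y, hydef⟩ : ∃ y : ℕ, y = ⌈(X : ℝ) ^ e⌉₊ - 1 := ⟨_, rfl⟩
  have hyc : 1 ≤ ⌈(X : ℝ) ^ e⌉₊ := Nat.ceil_pos.2 hXe0
  have hyge : (X : ℝ) ^ e - 1 ≤ y := by
    have := Nat.le_ceil ((X : ℝ) ^ e)
    rw [hydef, Nat.cast_sub hyc]
    push_cast
    linarith
  have hylt : (y : ℝ) < (X : ℝ) ^ e := by
    have := Nat.ceil_lt_add_one hXe0.le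
    rw [hydef, Nat.cast_sub hyc]
    push_cast
    linarith
  have hyN : N0 + 2 ≤ y := by
    have : ((N0 + 2 : ℕ) : ℝ) ≤ y := by push_cast; linarith
    exact_mod_cast this
  have hy0 : (0 : ℝ) < y := by
    have : (2 : ℝ) ≤ y := by exact_mod_cast (by omega : 2 ≤ y)
    linarith
  have hTK : L ≤ T := by
    have h5 : 0 ≤ W0 * e / c1 := by positivity
    have h6 : L ≤ (W0 * e / c1 + 1) * L := le_mul_of_one_le_left hL0.le (le_add_of_nonneg_left h5)
    exact h6.trans hT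
  have hTN : N0 + 3 ≤ T := by
    have : ((N0 + 3 : ℕ) : ℝ) ≤ T := by push_cast; linarith
    exact_mod_cast this
  have hT0r : (0 : ℝ) < T := by linarith
  have hTy : T ≤ y := by
    have : (T : ℝ) ≤ y := by linarith
    exact_mod_cast this
  have hy2 : 2 ≤ y := by omega
  have hlogy : Real.log y ≤ e * L := by
    have := Real.log_le_log hy0 hylt.le
    rwa [Real.log_rpow hXp, ← hLdef] at this
  have hlogy0 : 0 < Real.log y := Real.log_pos (by exact_mod_cast (by omega : 1 < y))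
  have hV1 := (hV y hy2).1
  have hV1a : c1 / (e * L) ≤ V1 y := (div_le_div_of_nonneg_left hc1.le hlogy0 hlogy).trans hV1
  have hV10 : 0 < V1 y := lt_of_lt_of_le (by positivity) hV1a
  have hV1b : c1 / L ≤ V1 y := by
    refine le_trans ?_ hV1a
    exact div_le_div_of_nonneg_left hc1.le (by positivity) (mul_le_of_le_one_left hL0.le he1)
  obtain ⟨c, hcA, hcD, hcW, hcl, hcc⟩ := HC2 X (by omega)
  obtain ⟨P, hPdef⟩ : ∃ P : Finset ℕ, P = pr X e υ := ⟨_, rfl⟩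
  rw [← hPdef] at hcD hcW hcl hcc
  have hPm : ∀ p ∈ P, p.Prime ∧ (X : ℝ) ^ e ≤ p ∧ (p : ℝ) < (X : ℝ) ^ υ := by
    intro p hp
    rw [hPdef] at hp
    exact pr_mem X p e υ (by omega) hp
  -- regularity
  have hMer1 : ∀ h ∈ Icc 1 T, Mer P (tt X) (gg h) e υ (min η0 1) := by
    intro h hh
    rw [mem_Icc] at hh
    have h5 : |(((h : ℕ) : ℤ) : ℝ)| ≤ Real.log X ^ B := by
      have h6 : |(((h : ℕ) : ℤ) : ℝ)| = (h : ℝ) := by
        push_cast
        exact abs_of_nonneg (Nat.cast_nonneg _)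
      rw [h6, ← hLdef]
      have : (h : ℝ) ≤ T := by exact_mod_cast hh.2
      linarith
    have h7 := HM X hXY2 h (not_sq' h hh.1) h5
    rw [← hPdef] at h7
    have h8 : (fun p => (ro (QF h) 0 p : ℝ) / p) = gg h := by
      funext p
      exact (gg_eq h p).symm
    rw [h8] at h7
    exact h7
  have hMer0 : ∀ h ∈ Icc 1 T, Mer P (tt X) (gg h) e υ η0 := by
    intro h hh x y' hx hxy hy'
    exact (hMer1 h hh x y' hx hxy hy').trans (min_le_left _ _)
  have h1T : 1 ∈ Icc 1 T := by rw [mem_Icc]; omega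
  obtain ⟨l, hldef⟩ : ∃ l : ℝ, l = VV P c (gg 1) := ⟨_, rfl⟩
  have hl : e * f0 ≤ l := by
    rw [hldef]
    exact hcl (gg 1) (fun p _ => gg_nonneg 1 p) (hMer0 1 h1T)
  have hef0 : 0 < e * f0 := by positivity
  have hl0 : 0 < l := lt_of_lt_of_le hef0 hl
  have hLL : ∀ h ∈ Icc 1 T, |VV P c (gg h) - l| ≤ ρ * l := by
    intro h hh
    rw [hldef]
    refine (hcc (gg h) (gg 1) (fun p _ => gg_nonneg h p) (fun p _ => gg_nonneg 1 p) (hMer0 h hh)
      (hMer0 1 h1T)).trans ?_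
    rw [← hldef]
    exact mul_le_mul_of_nonneg_left hl hρ0.le
  -- the data
  obtain ⟨D, hDdef⟩ : ∃ D : ℝ, D = (X : ℝ) ^ τ := ⟨_, rfl⟩
  have hD1 : 1 ≤ D := by rw [hDdef]; exact Real.one_le_rpow hX1 hτ0.le
  have hD3 : D ≤ (X : ℝ) ^ (3 : ℝ) := by
    rw [hDdef]
    exact Real.rpow_le_rpow_of_exponent_le hX1 (by linarith)
  have dat : Dat y Z Y T P c A D E M := by
    refine ⟨?_, hA0.le, hD1, hE1, hM1', ?_, ?_, ?_, ?_⟩
    · intro p hp
      obtain ⟨h5, h6, _⟩ := hPm p hp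
      refine ⟨h5, ?_⟩
      have : (y : ℝ) < p := hylt.trans_le h6
      exact_mod_cast this
    · intro U
      rw [hAdef]
      exact hcA U
    · intro U hU hne
      have h5 := hcD U hU hne
      rw [← hDdef] at h5
      refine ⟨h5, ?_⟩
      rw [hMdef]
      exact card_bd X (by omega) e he0 U (fun p hp => (hPm p (hU hp)).2.1) (h5.trans hD3)
    · intro h hh
      have h5 := hMer1 h hh
      rw [hPdef] at h5 ⊢
      rw [hEdef]
      exact prod_gg X e υ _ he0 heυ hυ1 (min_le_right _ _) h h5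
    · intro n hn h hh
      rw [hMdef]
      apply card_bd X (by omega) e he0
      · intro p hp
        exact (hPm p (mem_filter.1 hp).1).2.1
      · have h5 : ∏ p ∈ P.filter (fun p => p ∣ n ^ 2 + h), p ∣ n ^ 2 + h := by
          apply Finset.prod_primes_dvd
          · intro p hp
            exact (hPm p (mem_filter.1 hp).1).1.prime
          · intro p hp
            exact (mem_filter.1 hp).2
        rw [mem_Icc] at hh
        rw [mem_Ioc] at hn
        have h6 := Nat.le_of_dvd (by omega) h5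
        have h7 : (((∏ p ∈ P.filter (fun p => p ∣ n ^ 2 + h), p : ℕ)) : ℝ) ≤ ((n ^ 2 + h : ℕ) : ℝ) := by
          exact_mod_cast h6
        refine h7.trans ?_
        push_cast
        have h8 : (n : ℝ) ≤ 2 * X := by exact_mod_cast (by omega : n ≤ 2 * X)
        have h9 : (h : ℝ) ≤ X := by
          have g1 : (h : ℝ) ≤ T := by exact_mod_cast hh.2
          have g2 : (X : ℝ) ^ e ≤ X := by
            calc (X : ℝ) ^ e ≤ (X : ℝ) ^ (1 : ℝ) := Real.rpow_le_rpow_of_exponent_le hX1 he1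
              _ = X := Real.rpow_one _
          have g3 : (T : ℝ) ≤ y := by exact_mod_cast hTy
          linarith
        have h10 : (X : ℝ) ^ (3 : ℝ) = (X : ℝ) ^ 3 := by exact_mod_cast Real.rpow_natCast (X : ℝ) 3
        rw [h10]
        have h11 : (n : ℝ) ^ 2 ≤ (2 * X) ^ 2 := pow_le_pow_left₀ (Nat.cast_nonneg _) h8 2
        exact (add_le_add h11 h9).trans (size_aux X hXr)
  have m1 := H1' y (by omega) Z Y T P c A D E M dat
  have m2 := H2' y (by omega) Z Y T P c A D E M dat hTy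
  -- averages of the singular series
  obtain ⟨W, hWdef⟩ : ∃ W : ℝ, W = T * V1 y := ⟨_, rfl⟩
  have hW0 : 0 < W := by rw [hWdef]; positivity
  have s1 : |∑ h ∈ Icc 1 T, VH {h} y - W| ≤ ρ * W := by
    have h5 := HA0 T (by omega) y (by omega)
    rw [singles (Icc 1 T) (fun H => VH H y)]
    simpa [hWdef] using h5
  have s2 : |∑ x ∈ (Icc 1 T).offDiag, VH {x.1, x.2} y - W ^ 2| ≤ ρ * W ^ 2 := by
    have h5 := HA1 T (by omega) y (by omega)
    rw [pairs (Icc 1 T) (fun H => VH H y)]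
    simp only [Nat.reduceAdd, Nat.factorial_two, Nat.cast_ofNat, ← hWdef] at h5
    obtain ⟨h6, h7⟩ := abs_le.1 h5
    rw [abs_le]
    constructor <;> linarith
  -- sizes
  have hlW : f0 * c1 * T / L ≤ l * W := by
    rw [hWdef]
    calc f0 * c1 * T / L = (e * f0) * (T * (c1 / (e * L))) := by field_simp
      _ ≤ l * (T * V1 y) := by
          apply mul_le_mul hl _ (by positivity) hl0.le
          exact mul_le_mul_of_nonneg_left hV1a hT0r.le
  have hWW0 : W0 ≤ W := by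
    rw [hWdef]
    calc W0 ≤ (W0 * e / c1 + 1) * L * (c1 / (e * L)) := by
          have : (W0 * e / c1 + 1) * L * (c1 / (e * L)) = W0 + c1 / e := by
            field_simp
          rw [this]
          have : 0 < c1 / e := by positivity
          linarith
      _ ≤ T * V1 y := mul_le_mul hT hV1a (by positivity) hT0r.le
  have hYr : (1 : ℝ) ≤ Y := (Real.one_le_rpow hX1 hθ0.le).trans hY
  have hY0 : (0 : ℝ) ≤ Y := by linarith
  have hYθ : (X : ℝ) ^ (θ / 2) ≤ √(Y : ℝ) := by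
    apply Real.le_sqrt_of_sq_le
    rw [← Real.rpow_natCast, ← Real.rpow_mul hXp.le]
    refine le_trans (le_of_eq ?_) hY
    congr 1
    push_cast
    ring
  have hypow : ∀ C : ℕ, C ≤ Cm → (y : ℝ) ^ (C * bb) ≤ (X : ℝ) ^ (gap / 2) := by
    intro C hCC
    calc (y : ℝ) ^ (C * bb) ≤ ((X : ℝ) ^ e) ^ (C * bb) := pow_le_pow_left₀ hy0.le hylt.le _
      _ = (X : ℝ) ^ (e * ((C * bb : ℕ) : ℝ)) := by
          rw [Real.rpow_mul hXp.le, Real.rpow_natCast]
      _ ≤ (X : ℝ) ^ (gap / 2) := by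
          apply Real.rpow_le_rpow_of_exponent_le hX1
          rw [← hegap]
          apply mul_le_mul_of_nonneg_left _ he0.le
          push_cast
          apply mul_le_mul_of_nonneg_right _ hbb0.le
          exact_mod_cast hCC
  -- the number of rough values
  have hNs : ∑ n ∈ Ioc Z (Z + Y), (Ns y T n : ℝ) ≤ 3 * (Y * W) := by
    have hyK : y ^ Km ≤ Y := by
      have g : ((y ^ Km : ℕ) : ℝ) ≤ Y := by
        push_cast
        calc (y : ℝ) ^ Km ≤ ((X : ℝ) ^ e) ^ Km := pow_le_pow_left₀ hy0.le hylt.le _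
          _ = (X : ℝ) ^ (e * (Km : ℝ)) := by rw [Real.rpow_mul hXp.le, Real.rpow_natCast]
          _ ≤ (X : ℝ) ^ θ := by
              apply Real.rpow_le_rpow_of_exponent_le hX1
              exact le_trans (mul_le_mul_of_nonneg_left (le_add_of_nonneg_right zero_le_one) he0.le) heK
          _ ≤ Y := hY
      exact_mod_cast g
    have h5 := (abs_le.1 (Hm Z Y y T (by omega) hyK (by omega))).2
    simp only [zero_add, Nat.choose_one_right, pow_one, Nat.factorial_one, Nat.cast_one, div_one,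
      ← hWdef] at h5
    have h6 : (T : ℝ) * √(Y : ℝ) ≤ Y * W := by
      have h7 : 1 ≤ √(Y : ℝ) * V1 y := by
        have h8 : L / c1 ≤ √(Y : ℝ) := by
          refine le_trans ?_ hYθ
          refine le_trans (le_of_eq ?_) u3
          ring
        calc (1 : ℝ) = L / c1 * (c1 / L) := by field_simp
          _ ≤ _ := mul_le_mul h8 hV1b (by positivity) (Real.sqrt_nonneg _)
      have h9 : √(Y : ℝ) * √(Y : ℝ) = Y := Real.mul_self_sqrt hY0
      calc (T : ℝ) * √(Y : ℝ) = T * √(Y : ℝ) * 1 := by ring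
        _ ≤ T * √(Y : ℝ) * (√(Y : ℝ) * V1 y) := mul_le_mul_of_nonneg_left h7 (by positivity)
        _ = (√(Y : ℝ) * √(Y : ℝ)) * (T * V1 y) := by ring
        _ = Y * W := by rw [h9, hWdef]
    linarith
  have hdg : (A * M) ^ 2 * ∑ n ∈ Ioc Z (Z + Y), (Ns y T n : ℝ) ≤ ρ * (Y * (l * W) ^ 2) := by
    have h5 : 3 * (A * M) ^ 2 ≤ ρ * l ^ 2 * W := by
      calc 3 * (A * M) ^ 2 = ρ * (e * f0) ^ 2 * W0 := by
            rw [hW0def]
            field_simp
        _ ≤ ρ * l ^ 2 * W := by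
            apply mul_le_mul _ hWW0 hW00.le (by positivity)
            apply mul_le_mul_of_nonneg_left _ hρ0.le
            exact pow_le_pow_left₀ hef0.le hl 2
    calc (A * M) ^ 2 * ∑ n ∈ Ioc Z (Z + Y), (Ns y T n : ℝ) ≤ (A * M) ^ 2 * (3 * (Y * W)) :=
          mul_le_mul_of_nonneg_left hNs (by positivity)
      _ = (3 * (A * M) ^ 2) * (Y * W) := by ring
      _ ≤ (ρ * l ^ 2 * W) * (Y * W) := mul_le_mul_of_nonneg_right h5 (by positivity)
      _ = _ := by ring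
  have hlWr : 0 < l * W := by positivity
  have hfcT : 0 ≤ f0 * c1 * T / L := by positivity
  have he1' : A * M * D * T * (y : ℝ) ^ (C01 * bb) ≤ ρ * (Y * (l * W)) := by
    have h5 : A * M * L ≤ ρ * (f0 * c1) * (X : ℝ) ^ (gap / 2) := by
      rw [div_mul_eq_mul_div, div_le_iff₀ (by positivity), pow_one] at u4
      linarith
    have h6 : (X : ℝ) ^ (gap / 2) * (D * (X : ℝ) ^ (gap / 2)) ≤ Y := by
      refine le_trans ?_ hY
      rw [hDdef, ← Real.rpow_add hXp, ← Real.rpow_add hXp]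
      apply Real.rpow_le_rpow_of_exponent_le hX1
      linarith
    calc A * M * D * T * (y : ℝ) ^ (C01 * bb) ≤ A * M * D * T * (X : ℝ) ^ (gap / 2) := by
          apply mul_le_mul_of_nonneg_left (hypow C01 (by omega))
          positivity
      _ = (A * M * L) * (D * (X : ℝ) ^ (gap / 2) * T / L) := by field_simp
      _ ≤ (ρ * (f0 * c1) * (X : ℝ) ^ (gap / 2)) * (D * (X : ℝ) ^ (gap / 2) * T / L) :=
          mul_le_mul_of_nonneg_right h5 (by positivity)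
      _ = ρ * (((X : ℝ) ^ (gap / 2) * (D * (X : ℝ) ^ (gap / 2))) * (f0 * c1 * T / L)) := by ring
      _ ≤ ρ * (Y * (l * W)) := by
          apply mul_le_mul_of_nonneg_left _ hρ0.le
          exact mul_le_mul h6 hlW hfcT hY0
  have he2' : (A * M * D * T) ^ 2 * (y : ℝ) ^ (C02 * bb) ≤ ρ * (Y * (l * W) ^ 2) := by
    have h5 : (A * M) ^ 2 * L ^ 2 ≤ ρ * (f0 * c1) ^ 2 * (X : ℝ) ^ (gap / 2) := by
      rw [div_mul_eq_mul_div, div_le_iff₀ (by positivity)] at u5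
      linarith
    have h6 : (X : ℝ) ^ (gap / 2) * (D ^ 2 * (X : ℝ) ^ (gap / 2)) ≤ Y := by
      refine le_trans ?_ hY
      rw [hDdef, ← Real.rpow_natCast ((X : ℝ) ^ τ) 2, ← Real.rpow_mul hXp.le, ← Real.rpow_add hXp,
        ← Real.rpow_add hXp]
      apply Real.rpow_le_rpow_of_exponent_le hX1
      push_cast
      linarith
    calc (A * M * D * T) ^ 2 * (y : ℝ) ^ (C02 * bb) ≤ (A * M * D * T) ^ 2 * (X : ℝ) ^ (gap / 2) := by
          apply mul_le_mul_of_nonneg_left (hypow C02 (by omega))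
          positivity
      _ = ((A * M) ^ 2 * L ^ 2) * (D ^ 2 * (X : ℝ) ^ (gap / 2) * (T / L) ^ 2) := by field_simp
      _ ≤ (ρ * (f0 * c1) ^ 2 * (X : ℝ) ^ (gap / 2)) * (D ^ 2 * (X : ℝ) ^ (gap / 2) * (T / L) ^ 2) :=
          mul_le_mul_of_nonneg_right h5 (by positivity)
      _ = ρ * (((X : ℝ) ^ (gap / 2) * (D ^ 2 * (X : ℝ) ^ (gap / 2))) * (f0 * c1 * T / L) ^ 2) := by
          ring
      _ ≤ ρ * (Y * (l * W) ^ 2) := by
          apply mul_le_mul_of_nonneg_left _ hρ0.le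
          exact mul_le_mul h6 (pow_le_pow_left₀ hfcT hlW 2) (by positivity) hY0
  have hhalf : (0 : ℝ) < (1 / 2 : ℝ) ^ bb := by positivity
  have hδ1 : (1 / 2 : ℝ) ^ bb * (A * E) ≤ ρ * l := by
    have h5 : (1 / 2 : ℝ) ^ bb * (3 * A) ≤ ρ * f0 * e ^ 4 := by
      refine le_trans ?_ hb3a
      apply mul_le_mul_of_nonneg_left _ hhalf.le
      exact le_add_of_nonneg_left (by positivity)
    have h6 : e ^ 4 ≤ e * e := by
      calc e ^ 4 = e ^ 2 * e ^ 2 := by ring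
        _ ≤ 1 * e ^ 2 := mul_le_mul_of_nonneg_right (pow_le_one₀ he0.le he1) (by positivity)
        _ = e * e := by ring
    calc (1 / 2 : ℝ) ^ bb * (A * E) = (1 / 2 : ℝ) ^ bb * (3 * A) / e := by
          rw [hEdef]
          field_simp
      _ ≤ ρ * f0 * e ^ 4 / e := div_le_div_of_nonneg_right h5 he0.le
      _ ≤ ρ * f0 * (e * e) / e := by
          apply div_le_div_of_nonneg_right _ he0.le
          exact mul_le_mul_of_nonneg_left h6 (by positivity)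
      _ = ρ * (e * f0) := by field_simp
      _ ≤ ρ * l := mul_le_mul_of_nonneg_left hl hρ0.le
  have hδ2 : A ^ 2 * E ^ 2 * ((1 / 2 : ℝ) ^ bb + 4 * ∑ p ∈ P, 1 / (p : ℝ) ^ 2) ≤ ρ * l ^ 2 := by
    have h5 : A ^ 2 * E ^ 2 * (1 / 2 : ℝ) ^ bb ≤ ρ * (e * f0) ^ 2 / 2 := by
      have h6 : (1 / 2 : ℝ) ^ bb * (18 * A ^ 2) ≤ ρ * f0 ^ 2 * e ^ 4 := by
        refine le_trans ?_ hb3b
        apply mul_le_mul_of_nonneg_left _ hhalf.le
        exact le_add_of_nonneg_right (by positivity)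
      calc A ^ 2 * E ^ 2 * (1 / 2 : ℝ) ^ bb = (1 / 2 : ℝ) ^ bb * (18 * A ^ 2) / (2 * e ^ 2) := by
            rw [hEdef]
            field_simp
            ring
        _ ≤ ρ * f0 ^ 2 * e ^ 4 / (2 * e ^ 2) := div_le_div_of_nonneg_right h6 (by positivity)
        _ = ρ * (e * f0) ^ 2 / 2 := by field_simp
    have h7 : ∑ p ∈ P, 1 / (p : ℝ) ^ 2 ≤ 2 / (X : ℝ) ^ e := by
      apply Pool.Agent.Y882.MG.tail_sq P _ (by linarith)
      intro q hq
      exact (hPm q hq).2.1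
    have h8 : A ^ 2 * E ^ 2 * (4 * (2 / (X : ℝ) ^ e)) ≤ ρ * (e * f0) ^ 2 / 2 := by
      rw [div_le_iff₀ (by positivity)] at u6
      calc A ^ 2 * E ^ 2 * (4 * (2 / (X : ℝ) ^ e)) = (16 * (A ^ 2 * E ^ 2)) / (2 * (X : ℝ) ^ e) := by
            field_simp
            norm_num
        _ ≤ ((X : ℝ) ^ e * (ρ * (e * f0) ^ 2)) / (2 * (X : ℝ) ^ e) :=
            div_le_div_of_nonneg_right u6 (by positivity)
        _ = ρ * (e * f0) ^ 2 / 2 := by field_simp
    have h9 : A ^ 2 * E ^ 2 * (4 * ∑ p ∈ P, 1 / (p : ℝ) ^ 2) ≤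
        A ^ 2 * E ^ 2 * (4 * (2 / (X : ℝ) ^ e)) := by
      apply mul_le_mul_of_nonneg_left _ (by positivity)
      linarith
    have h10 : ρ * (e * f0) ^ 2 ≤ ρ * l ^ 2 :=
      mul_le_mul_of_nonneg_left (pow_le_pow_left₀ hef0.le hl 2) hρ0.le
    rw [mul_add]
    linarith
  have key := to_bad y Z Y T P c l ρ W _ _ _ _ _ hρ0 hρ1 hl0 hW0 m1 m2 hLL hδ1 hδ2 s1 s2 hdg he1' he2'
  calc _ ≤ (((Ioc Z (Z + Y)).filter (fun n => SS y T P c n < l * W / 2)).card : ℝ) := by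
        apply Nat.cast_le.2
        apply card_le_card
        intro n hn
        rw [mem_filter] at hn ⊢
        refine ⟨hn.1, ?_⟩
        have h5 := SS_le X T (by omega) e ζ υ a b heζ he1 hb hab P c hcW n
        rw [← hydef] at h5
        refine h5.trans_lt (hn.2.trans_le ?_)
        calc f0 * c1 / 2 * T / L = (f0 * c1 * T / L) / 2 := by ring
          _ ≤ l * W / 2 := by linarith
    _ ≤ 60 * ρ * Y := key
    _ ≤ ε * Y := mul_le_mul_of_nonneg_right hρε hY0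

end Pool.Agent.K1H50.PV
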